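import Mathlib
import Pool.Agent.H99.GeoConsDefs
import Pool.Agent.H99.GeoConsAlg

set_option autoImplicit false

namespace Pool.Agent.Results.MP_027f17_mp.Counter

open MvPolynomial Finset Filter Topology Pool.Agent.H99.GeoSys

section germs

variable {E : Type} [NormedAddCommGroup E] [NormedSpace ℝ E] (q0 : E)

/-- functions analytic at q0 -/
def An : Subring (E → ℝ) where
  carrier := {f | AnalyticAt ℝ f q0}
  mul_mem' := AnalyticAt.mul
  one_mem' := analyticAt_const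
  add_mem' := AnalyticAt.add
  zero_mem' := analyticAt_const
  neg_mem' := AnalyticAt.neg

/-- analytic germs -/
def GA : Subring (Germ (𝓝 q0) ℝ) := (An q0).map (Germ.coeRingHom (𝓝 q0))

/-- germ of an analytic function -/
def gm (f : E → ℝ) (hf : AnalyticAt ℝ f q0) : GA q0 := ⟨(f : Germ (𝓝 q0) ℝ), f, hf, rfl⟩

variable {q0}

lemma gm_eq {f g : E → ℝ} {hf : AnalyticAt ℝ f q0} {hg : AnalyticAt ℝ g q0} :
    gm q0 f hf = gm q0 g hg ↔ f =ᶠ[𝓝 q0] g := by
  rw [Subtype.ext_iff]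
  exact Germ.coe_eq

lemma ex_gm (a : GA q0) : ∃ f hf, a = gm q0 f hf := by
  obtain ⟨_, f, hf, rfl⟩ := a
  exact ⟨f, hf, rfl⟩

lemma an_d {f : E → ℝ} (hf : AnalyticAt ℝ f q0) (e : E) :
    AnalyticAt ℝ (fun q => fderiv ℝ f q e) q0 :=
  ((ContinuousLinearMap.apply ℝ ℝ e).analyticAt _).comp hf.fderiv

/-- directional derivative on germs -/
noncomputable def gd (e : E) : Germ (𝓝 q0) ℝ → Germ (𝓝 q0) ℝ :=
  Germ.map' (fun f q => fderiv ℝ f q e) fun _ _ h =>
    (h.fderiv (𝕜 := ℝ)).mono fun _ hq => by simp only [hq]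

/-- directional derivative on analytic germs -/
noncomputable def dd (e : E) : GA q0 →+ GA q0 := AddMonoidHom.mk'
  (fun a => ⟨gd e a, by
    obtain ⟨_, f, hf, rfl⟩ := a
    exact ⟨_, an_d hf e, rfl⟩⟩) (by
    intro a b
    obtain ⟨f, hf, rfl⟩ := ex_gm a
    obtain ⟨g, hg, rfl⟩ := ex_gm b
    change gm q0 _ (an_d (hf.add hg) e) = gm q0 _ ((an_d hf e).add (an_d hg e))
    rw [gm_eq]
    filter_upwards [hf.eventually_analyticAt, hg.eventually_analyticAt] with q h1 h2
    rw [fderiv_add h1.differentiableAt h2.differentiableAt]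
    rfl)

lemma dd_gm (e : E) (f : E → ℝ) (hf : AnalyticAt ℝ f q0) :
    dd e (gm q0 f hf) = gm q0 _ (an_d hf e) := rfl

lemma dd_mul (e : E) (a b : GA q0) : dd e (a * b) = dd e a * b + a * dd e b := by
  obtain ⟨f, hf, rfl⟩ := ex_gm a
  obtain ⟨g, hg, rfl⟩ := ex_gm b
  change gm q0 _ (an_d (hf.mul hg) e) = gm q0 _ (((an_d hf e).mul hg).add (hf.mul (an_d hg e)))
  rw [gm_eq]
  filter_upwards [hf.eventually_analyticAt, hg.eventually_analyticAt] with q h1 h2
  rw [fderiv_mul h1.differentiableAt h2.differentiableAt]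
  simp
  ring

lemma fd2 {f : E → ℝ} {q : E} (h : AnalyticAt ℝ f q) (e e' : E) :
    fderiv ℝ (fun q => fderiv ℝ f q e') q e = fderiv ℝ (fderiv ℝ f) q e e' := by
  rw [fderiv_clm_apply h.fderiv.differentiableAt (differentiableAt_const _)]
  simp

lemma dd_comm (e e' : E) (a : GA q0) : dd e (dd e' a) = dd e' (dd e a) := by
  obtain ⟨f, hf, rfl⟩ := ex_gm a
  rw [dd_gm, dd_gm, dd_gm, dd_gm, gm_eq]
  filter_upwards [hf.eventually_analyticAt] with q h1
  rw [fd2 h1, fd2 h1]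
  exact (h1.contDiffAt (n := ⊤)).isSymmSndFDerivAt_of_omega e e'

lemma gm_sum {ι : Type} (s : Finset ι) (f : ι → E → ℝ) (hf : ∀ i, AnalyticAt ℝ (f i) q0)
    (h : AnalyticAt ℝ (fun q => ∑ i ∈ s, f i q) q0) :
    ∑ i ∈ s, gm q0 (f i) (hf i) = gm q0 _ h := by
  apply Subtype.ext
  rw [AddSubmonoidClass.coe_finsetSum]
  change ∑ i ∈ s, Germ.coeRingHom (𝓝 q0) (f i) = Germ.coeRingHom (𝓝 q0) _
  rw [← map_sum]
  congr 1
  funext q
  simp

end germs

/-- coordinate directions -/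
def ee (M : ℕ) (v : Fin 3 × ℕ) : Fin 3 × Fin (M + 1) → ℝ :=
  fun w => if (w.1, (w.2 : ℕ)) = v then 1 else 0

/-- extension of a finite jet by p0 -/
def ex (M : ℕ) (p0 : Fin 3 × ℕ → ℝ) (q : Fin 3 × Fin (M + 1) → ℝ) : Fin 3 × ℕ → ℝ :=
  fun v => if h : v.2 < M + 1 then q (v.1, ⟨v.2, h⟩) else p0 v

lemma ex_tr (M : ℕ) (p0 : Fin 3 × ℕ → ℝ) : ex M p0 (tr M p0) = p0 := by
  funext v
  simp [ex, tr]

lemma an_ex (M : ℕ) (p0 : Fin 3 × ℕ → ℝ) (q0 : Fin 3 × Fin (M + 1) → ℝ) (v : Fin 3 × ℕ) :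
    AnalyticAt ℝ (fun q => ex M p0 q v) q0 := by
  unfold ex
  split_ifs with h
  · exact (ContinuousLinearMap.proj (R := ℝ) (φ := fun _ : Fin 3 × Fin (M + 1) => ℝ)
      (v.1, ⟨v.2, h⟩)).analyticAt q0
  · exact analyticAt_const

lemma an_ev (M : ℕ) (p0 : Fin 3 × ℕ → ℝ) (q0 : Fin 3 × Fin (M + 1) → ℝ) (P : Jt 3) :
    AnalyticAt ℝ (fun q => eval (ex M p0 q) P) q0 := by
  induction P using MvPolynomial.induction_on with
  | C c => simpa using analyticAt_const
  | add p q hp hq => simpa using hp.fun_add hq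
  | mul_X p w hp => simpa using hp.fun_mul (an_ex M p0 q0 w)

/-- evaluation of differential polynomials as germs -/
noncomputable def ph (M : ℕ) (p0 : Fin 3 × ℕ → ℝ) : Jt 3 →+* GA (tr M p0) where
  toFun P := gm _ _ (an_ev M p0 _ P)
  map_one' := gm_eq.2 (by simp) |>.trans
    (show gm _ (fun _ => 1) analyticAt_const = 1 from rfl)
  map_mul' P Q := gm_eq.2 (Eventually.of_forall fun q => by simp) |>.trans
    (show gm _ _ ((an_ev M p0 _ P).mul (an_ev M p0 _ Q)) = _ from rfl)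
  map_zero' := gm_eq.2 (by simp) |>.trans
    (show gm _ (fun _ => 0) analyticAt_const = 0 from rfl)
  map_add' P Q := gm_eq.2 (Eventually.of_forall fun q => by simp) |>.trans
    (show gm _ _ ((an_ev M p0 _ P).add (an_ev M p0 _ Q)) = _ from rfl)

/-- restriction of finite jets -/
noncomputable def rs (k M : ℕ) (h : k ≤ M) :
    (Fin 3 × Fin (M + 1) → ℝ) →L[ℝ] (Fin 3 × Fin (k + 1) → ℝ) :=
  ContinuousLinearMap.pi fun v => ContinuousLinearMap.proj (v.1, v.2.castLE (by omega))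

lemma rs_ex (k M : ℕ) (h : k ≤ M) (p0 : Fin 3 × ℕ → ℝ) (q : Fin 3 × Fin (M + 1) → ℝ) :
    tr k (ex M p0 q) = rs k M h q := by
  funext v
  have : (v.2 : ℕ) < M + 1 := by omega
  simp only [tr, ex, this, dite_true]
  rfl

lemma rs_ee (k M : ℕ) (h : k ≤ M) (v : Fin 3 × ℕ) : rs k M h (ee M v) = ee k v := rfl

lemma ee_zero (k : ℕ) (i : Fin 3) (n : ℕ) (h : k < n) : ee k (i, n) = 0 := by
  funext w
  have := w.2.2
  simp only [ee, Prod.mk.injEq, Pi.zero_apply]
  rw [if_neg (by omega)]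

lemma along_eq (k M L : ℕ) (h : k ≤ M) (hL : k < L) (p0 : Fin 3 × ℕ → ℝ)
    (f : (Fin 3 × Fin (k + 1) → ℝ) → ℝ) (D : Derivation ℝ (Jt 3) (Jt 3))
    (q : Fin 3 × Fin (M + 1) → ℝ) (hf : AnalyticAt ℝ f (rs k M h q)) :
    along k f D (ex M p0 q) = ∑ n ∈ range L, ∑ i,
      eval (ex M p0 q) (D (X (i, n))) * fderiv ℝ (f ∘ rs k M h) q (ee M (i, n)) := by
  rw [fderiv_comp q hf.differentiableAt (rs k M h).differentiableAt, along, rs_ex k M h]
  simp only [ContinuousLinearMap.fderiv, ContinuousLinearMap.comp_apply, rs_ee, ← smul_eq_mul,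
    ← map_smul, ← map_sum]
  congr 1
  funext w
  simp only [Finset.sum_apply, Pi.smul_apply, ee, smul_eq_mul]
  rw [sum_eq_single (w.2 : ℕ), sum_eq_single w.1]
  · simp
  · intro i _ hi
    simp [hi.symm]
  · simp
  · intro n _ hn
    simp [hn.symm]
  · intro h2
    exact absurd (mem_range.2 (by have := w.2.2; omega)) h2

lemma row_zero (k : ℕ) (ρ : (Fin 3 × Fin (k + 2 + 1) → ℝ) → ℝ) (p0 : Fin 3 × ℕ → ℝ)
    (h : ConsLaw FF (k + 2) ρ p0) (j : Fin 3) : topHess (k + 2) ρ (tr (k + 2) p0) 2 j = 0 := by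
  obtain ⟨hρ, m, θ, hθ, he⟩ := h
  set M := k + 5 + m with hM
  have hk : k + 2 ≤ M := by omega
  have hm : m ≤ M := by omega
  have r1 : rs (k + 2) M hk (tr M p0) = tr (k + 2) p0 := rfl
  have r2 : rs m M hm (tr M p0) = tr m p0 := rfl
  have a1 : AnalyticAt ℝ (ρ ∘ rs (k + 2) M hk) (tr M p0) :=
    AnalyticAt.comp (by rwa [r1]) ((rs _ M hk).analyticAt _)
  have a2 : AnalyticAt ℝ (θ ∘ rs m M hm) (tr M p0) :=
    AnalyticAt.comp (by rwa [r2]) ((rs _ M hm).analyticAt _)
  have v1 : ∀ᶠ q in 𝓝 (tr M p0), AnalyticAt ℝ ρ (rs (k + 2) M hk q) :=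
    (rs (k + 2) M hk).continuous.continuousAt.eventually (r1 ▸ hρ.eventually_analyticAt)
  have v2 : ∀ᶠ q in 𝓝 (tr M p0), AnalyticAt ℝ θ (rs m M hm q) :=
    (rs m M hm).continuous.continuousAt.eventually (r2 ▸ hθ.eventually_analyticAt)
  have van : ∀ (l : ℕ) (hl : l ≤ M) (f : (Fin 3 × Fin (l + 1) → ℝ) → ℝ)
      (a : AnalyticAt ℝ (f ∘ rs l M hl) (tr M p0)),
      (∀ᶠ q in 𝓝 (tr M p0), AnalyticAt ℝ f (rs l M hl q)) → ∀ i n, l < n →
      dd (ee M (i, n)) (gm _ _ a) = 0 := by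
    intro l hl f a v i n hn
    rw [dd_gm]
    refine (gm_eq.2 ?_).trans (show gm _ (fun _ => 0) analyticAt_const = 0 from rfl)
    filter_upwards [v] with q hq
    rw [fderiv_comp q hq.differentiableAt (rs l M hl).differentiableAt]
    simp [rs_ee, ee_zero l i n hn]
  have key := alg (d := fun v => dd (ee M v)) (φ := ph M p0) (M := M)
    (fun v => dd_mul _) (fun v w => dd_comm _ _) (fun v c => by
      change dd (ee M v) (gm _ _ (an_ev M p0 _ (C c))) = gm _ (fun _ => 0) analyticAt_const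
      rw [dd_gm, gm_eq]
      simp) (fun v w hv => by
      rw [show (if w = v then 1 else 0 : GA (tr M p0)) =
        gm _ (fun _ => if w = v then 1 else 0) analyticAt_const by split_ifs <;> rfl]
      change dd (ee M v) (gm _ _ (an_ev M p0 _ (X w))) = _
      rw [dd_gm, gm_eq]
      refine Eventually.of_forall fun q => ?_
      simp only [eval_X, ex]
      by_cases hw : w.2 < M + 1
      · simp only [hw, dite_true]
        have := (ContinuousLinearMap.proj (R := ℝ) (φ := fun _ : Fin 3 × Fin (M + 1) => ℝ)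
          (w.1, ⟨w.2, hw⟩)).fderiv (x := q)
        change fderiv ℝ (fun q : Fin 3 × Fin (M + 1) → ℝ => q (w.1, ⟨w.2, hw⟩)) q = _ at this
        rw [this]
        rfl
      · simp only [hw, dite_false]
        rw [if_neg (by rintro rfl; omega)]
        simp) k (by omega) (gm _ _ a1) (gm _ _ a2) (van _ hk ρ a1 v1)
      (fun i => van _ hm θ a2 v2 i M (by omega)) (by
        have hc : Tendsto (ex M p0) (𝓝 (tr M p0)) (𝓝 p0) := by
          have : ContinuousAt (ex M p0) (tr M p0) :=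
            continuousAt_pi.2 fun v => (an_ex M p0 _ v).continuousAt
          rwa [ContinuousAt, ex_tr] at this
        have s : ∀ (L : ℕ) (P : Fin 3 → ℕ → Jt 3) (f : _) (a : AnalyticAt ℝ f (tr M p0)),
            ∑ n ∈ range L, ∑ i, ph M p0 (P i n) * dd (ee M (i, n)) (gm _ f a) =
            gm _ (fun q => ∑ n ∈ range L, ∑ i, eval (ex M p0 q) (P i n) *
              fderiv ℝ f q (ee M (i, n))) (Finset.analyticAt_fun_sum _ fun n _ =>
                Finset.analyticAt_fun_sum _ fun i _ => (an_ev M p0 _ _).mul (an_d a _)) := by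
          intro L P f a
          refine Eq.trans ?_ (gm_sum (range L) (fun n q => ∑ i, eval (ex M p0 q) (P i n) *
              fderiv ℝ f q (ee M (i, n))) (fun n => Finset.analyticAt_fun_sum _ fun i _ =>
            (an_ev M p0 _ _).mul (an_d a _)) _)
          refine sum_congr rfl fun n _ => ?_
          exact gm_sum univ (fun i q => eval (ex M p0 q) (P i n) *
              fderiv ℝ f q (ee M (i, n))) (fun i => (an_ev M p0 _ _).mul (an_d a _)) _
        change _ = ∑ n ∈ range M, ∑ i, ph M p0 (X (i, n + 1)) * dd (ee M (i, n)) (gm _ _ a2)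
        rw [s (k + 3) (fun i n => Dx^[n] (FF i)), s M (fun i n => X (i, n + 1)), gm_eq]
        filter_upwards [hc.eventually he, v1, v2] with q h1 h2 h3
        rw [along_eq (k + 2) M (k + 3) hk (by omega) p0 ρ _ q h2,
          along_eq m M M hm (by omega) p0 θ _ q h3] at h1
        simpa only [Dt_X, Dx_X] using h1) j
  rw [dd_gm, dd_gm] at key
  have k2 := (gm_eq.1 (key.trans (show 0 = gm _ (fun _ => 0) analyticAt_const from rfl))).self_of_nhds
  have es : ∀ i : Fin 3, ee (k + 2) (i, k + 2) = Pi.single (i, Fin.last (k + 2)) 1 := by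
    intro i
    funext w
    simp [ee, Pi.single_apply, Prod.ext_iff, Fin.ext_iff]
  have e3 : (fun q => fderiv ℝ (ρ ∘ rs (k + 2) M hk) q (ee M (j, k + 2))) =ᶠ[𝓝 (tr M p0)]
      (fun y => fderiv ℝ ρ y (Pi.single (j, Fin.last (k + 2)) 1)) ∘ rs (k + 2) M hk := by
    filter_upwards [v1] with q hq
    rw [fderiv_comp q hq.differentiableAt (rs _ M hk).differentiableAt]
    simp [rs_ee, es]
  simp only at k2
  rw [e3.fderiv_eq, fderiv_comp _ (by rw [r1]; exact (an_d hρ _).differentiableAt)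
    (rs _ M hk).differentiableAt] at k2
  simpa [rs_ee, es, r1, topHess] using k2

/-- the tensor β of the example -/
noncomputable def be (i j k m : Fin 3) : Fn 3 :=
  if i = 2 ∧ (j = 0 ∧ k = 0 ∧ m = 1 ∨ j = 0 ∧ k = 1 ∧ m = 0 ∨ j = 1 ∧ k = 0 ∧ m = 0) then 1 else 0

lemma rhs_eq : rhs (fun _ _ _ => 0) be = FF := by
  funext i
  fin_cases i
  · simp [rhs, be, FF, up]
  · simp [rhs, be, FF, up]
  · simp only [rhs, be, FF, up, cub, Fin.sum_univ_three]
    simp
    ring

lemma app_be (X Y Z : Fin 3 → Fn 3) (i : Fin 3) : app be X Y Z i =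
    if i = 2 then X 0 * Y 0 * Z 1 + X 0 * Y 1 * Z 0 + X 1 * Y 0 * Z 0 else 0 := by
  fin_cases i <;> simp [app, be, Fin.sum_univ_three]

/-- A zero-torsion system of geometric type with N = 3 satisfying (C1)-(C5) that has no
nondegenerate locally analytic conservation law of any order k ≥ 2. -/
theorem result :
    ∃ (α : Fin 3 → Fin 3 → Fin 3 → Fn 3) (β : Fin 3 → Fin 3 → Fin 3 → Fin 3 → Fn 3),
      (∀ i j k, α i j k = α i k j) ∧ TotSymm β ∧ Conds α β ∧
      ∀ k, 2 ≤ k → ∀ ρ p0, ConsLaw (rhs α β) k ρ p0 → (topHess k ρ (tr k p0)).det = 0 := by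
  have c0 : curv (fun _ _ _ => (0 : Fn 3)) = fun _ _ _ _ => 0 := by
    funext i j k l
    simp [curv]
  have s0 : sig (fun _ _ _ => (0 : Fn 3)) be = be := by
    funext i j k l
    simp [sig, c0]
  refine ⟨fun _ _ _ => 0, be, fun _ _ _ => rfl, ?_, ⟨?_, ?_, ?_, ?_, ?_⟩, ?_⟩
  · intro i j k m
    simp only [be]
    constructor <;> congr 2 <;> apply propext <;> tauto
  · intro m i j k l
    simp [cov, c0]
  · intro m i j k l
    simp only [cov, s0, be]
    split_ifs <;> simp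
  · intro X Y Z
    funext i
    rw [s0, c0, Pi.sub_apply, app_be, app_be]
    split_ifs
    · simp [app]; ring
    · simp [app]
  · intro X Y Z
    funext i
    rw [s0, app_be, app_be]
    split_ifs
    · ring
    · rfl
  · intro X Y Z V W
    funext i
    simp [s0, app_be]
  · intro k hk ρ p0 h
    obtain ⟨k, rfl⟩ : ∃ k', k = k' + 2 := ⟨k - 2, by omega⟩
    rw [rhs_eq] at h
    exact Matrix.det_eq_zero_of_row_eq_zero 2 (row_zero k ρ p0 h)

end Pool.Agent.Results.MP_027f17_mp.Counter
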